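import Pool.Agent.Helper88.Ric.Stmts

/-! # Module EXT: extension of an embedding to the whole open part -/

set_option autoImplicit false

open scoped ContDiff Manifold Topology MatrixGroups LinearAlgebra.Projectivization
open Complex

noncomputable section

namespace RicP

variable {M : ModData} {N : ℕ}

/-! ### Elementary facts -/

theorem ext_D0_ne {k : ZMod N} {p x₀ : E} (h : D0 k p x₀) : p.1 * p.2 ≠ 0 := by
  rw [← h.2.1]
  exact Complex.exp_ne_zero _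

theorem ext_jj_ne (γ : SL(2, ℤ)) {τ : ℂ} (hτ : 0 < τ.im) : jj γ τ ≠ 0 := by
  intro h
  unfold jj at h
  have h1 := congrArg Complex.im h
  have h2 := congrArg Complex.re h
  simp only [add_im, mul_im, intCast_re, intCast_im, zero_mul, add_zero, zero_im, add_re, mul_re,
    sub_zero, zero_re] at h1 h2
  have hc : ((γ 1 0 : ℤ) : ℝ) = 0 := by
    rcases mul_eq_zero.1 h1 with h3 | h3
    · exact h3
    · exact absurd h3 hτ.ne'
  rw [hc, zero_mul, zero_add] at h2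
  have h3 : (γ 1 0 : ℤ) = 0 := by exact_mod_cast hc
  have h4 : (γ 1 1 : ℤ) = 0 := by exact_mod_cast h2
  have h5 := γ.det_coe
  rw [Matrix.det_fin_two, h3, h4] at h5
  simp at h5

theorem ext_moveTo (t : ℝ) (q q' : QN M N) (γ : SL(2, ℤ))
    (hq : (q : SL(2, ZMod N) × ℂˣ) = (q' : SL(2, ZMod N) × ℂˣ) * hN M N γ) (x : E)
    (hx : 0 < x.1.im) : ∃ x' : E, GR M t q q' x x' ∧ x'.1 = mob γ x.1 := by
  have hj := ext_jj_ne γ hx
  refine ⟨(mob γ x.1, (x.2 - sF M t (zet M q) x.1) / jj γ x.1 + sF M t (zet M q') (mob γ x.1)),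
    ⟨γ, 0, 0, hq, rfl, ?_⟩, rfl⟩
  simp only [Int.cast_zero, zero_mul, add_zero, add_sub_cancel_right]
  field_simp

theorem ext_trans_lat (t : ℝ) (q : QN M N) (x : E) (m : ℤ) :
    GR M t q q x (x.1, x.2 + (m : ℂ) * x.1) := by
  refine ⟨1, m, 0, by rw [map_one, mul_one], ?_, ?_⟩
  · simp [mob]
  · simp only [jj]
    simp
    ring

/-- two representatives of a point of a node chart -/
theorem ext_D0_GR (hDU : ST_DU) (hBOR : ST_BOR) (hNN : NOK N) (t : ℝ) (q : QN M N) {k : ZMod N}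
    {p x₀ x₁ : E} (h₀ : D0 k p x₀) (h₁ : D0 k p x₁) : GR M t q q x₀ x₁ := by
  obtain ⟨j, m, e1, e2⟩ := (hDU N (by have := hNN.2; omega) k p x₀ x₁ h₀).1 h₁
  let γ : SL(2, ℤ) := ⟨!![1, N * j; 0, 1], by simp [Matrix.det_fin_two]⟩
  have g00 : γ 0 0 = 1 := rfl
  have g01 : γ 0 1 = N * j := rfl
  have g10 : γ 1 0 = 0 := rfl
  have g11 : γ 1 1 = 1 := rfl
  obtain ⟨s, -, s1, -, s3, s4, s5, -, s7⟩ := hBOR M γ g10
  have hs : s = 1 := by rw [← s1, g00]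
  subst hs
  have hN1 : hN M N γ = 1 := s7 N hNN.1 rfl (by rw [g01]; exact Dvd.intro _ rfl)
  have hχ : M.χ γ = 1 := by
    have := congrArg Prod.snd hN1
    exact this
  have hmob : mob γ x₀.1 = x₁.1 := by
    rw [(s3 x₀.1).2, g01, e1]
    push_cast
    ring
  have hF1 := M.period₁ γ x₀.1 h₀.1
  have hF2 := M.period₂ γ x₀.1 h₀.1
  rw [hmob, g00, g10, hχ, s4] at hF1
  rw [hmob, g01, g11, hχ, s5] at hF2
  have hF1' : M.F₁ x₁.1 = M.F₁ x₀.1 := by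
    simpa using hF1
  have hF2' : M.F₂ x₁.1 = M.F₂ x₀.1 - M.F₁ x₀.1 * (N * j) := by
    rw [hF1'] at hF2
    have : M.F₁ x₀.1 * (N * j) + M.F₂ x₁.1 = M.F₂ x₀.1 := by
      simpa using hF2
    rw [← this]
    ring
  have hsF : sF M t (zet M q) x₁.1 = sF M t (zet M q) x₀.1 := by
    unfold sF
    rw [hF1', hF2', e1]
    have : (zet M q * (M.F₂ x₀.1 - M.F₁ x₀.1 * (N * j))).re =
        (zet M q * M.F₂ x₀.1).re - (zet M q * M.F₁ x₀.1).re * (N * j) := by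
      rw [mul_sub, sub_re, ← mul_assoc]
      congr 1
      have h2 : ((N : ℂ) * (j : ℂ)) = (((N : ℝ) * (j : ℝ) : ℝ) : ℂ) := by push_cast; ring
      rw [h2, re_mul_ofReal]
    rw [this]
    push_cast
    ring
  refine ⟨γ, 0, m, by rw [hN1, mul_one], hmob.symm, ?_⟩
  rw [(s3 x₀.1).1, hsF, e2]
  push_cast
  ring

theorem ext_exp_num : Real.exp (-(37 / 40)) < 2 / 5 := by
  have h1 : (5 / 2 : ℝ) < Real.exp (37 / 40) := by
    have h2 := Real.sum_le_exp_of_nonneg (x := 37 / 40) (by norm_num) 7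
    refine lt_of_lt_of_le ?_ h2
    simp only [Finset.sum_range_succ, Finset.sum_range_zero, Nat.factorial]
    norm_num
  rw [Real.exp_neg]
  rw [inv_lt_comm₀ (Real.exp_pos _) (by norm_num)]
  norm_num at h1 ⊢
  exact h1

/-- points close to a cusp are in a node chart -/
theorem ext_node (hNN : NOK N) (x : E) (hx : 0 < x.1.im)
    (hL : 37 / 20 ≤ 4 * Real.pi * x.1.im / N) :
    ∃ (k : ZMod N) (p : E) (m : ℤ), p ∈ UD ∧ D0 k p (x.1, x.2 + (m : ℂ) * x.1) := by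
  have hN0 : (0 : ℝ) < N := by have := hNN.2; exact_mod_cast (by omega : 0 < N)
  have hN0' : (N : ℂ) ≠ 0 := by exact_mod_cast hN0.ne'
  have : NeZero N := ⟨by have := hNN.2; omega⟩
  set Q : ℂ := Complex.exp (2 * Real.pi * I * x.1 / N) with hQ
  set Z : ℂ := Complex.exp (2 * Real.pi * I * x.2) with hZ
  have hQ0 : Q ≠ 0 := Complex.exp_ne_zero _
  have hZ0 : Z ≠ 0 := Complex.exp_ne_zero _
  have hQn : ‖Q‖ = Real.exp (-(4 * Real.pi * x.1.im / N / 2)) := by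
    rw [hQ, Complex.norm_exp]
    congr 1
    have : (2 * Real.pi * I * x.1 / N : ℂ) = ((2 * Real.pi / N : ℝ) : ℂ) * (I * x.1) := by
      push_cast
      field_simp
    rw [this, re_ofReal_mul]
    simp
    ring
  have hQlt : ‖Q‖ < 2 / 5 := by
    rw [hQn]
    refine lt_of_le_of_lt (Real.exp_le_exp.2 ?_) ext_exp_num
    linarith
  have hQpos : 0 < ‖Q‖ := norm_pos_iff.2 hQ0
  have hZpos : 0 < ‖Z‖ := norm_pos_iff.2 hZ0
  have hlog : Real.log ‖Q‖ < 0 := Real.log_neg hQpos (by linarith)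
  set l : ℤ := ⌊Real.log ‖Z‖ / Real.log ‖Q‖⌋ with hl
  have h1 : ‖Z‖ ≤ ‖Q‖ ^ l := by
    have h2 : (l : ℝ) ≤ Real.log ‖Z‖ / Real.log ‖Q‖ := Int.floor_le _
    rw [le_div_iff_of_neg hlog] at h2
    rw [← Real.log_le_log_iff hZpos (zpow_pos hQpos _), Real.log_zpow]
    exact h2
  have h2 : ‖Q‖ ^ (l + 1) < ‖Z‖ := by
    have h3 : Real.log ‖Z‖ / Real.log ‖Q‖ < (l : ℝ) + 1 := Int.lt_floor_add_one _
    rw [div_lt_iff_of_neg hlog] at h3
    rw [← Real.log_lt_log_iff (zpow_pos hQpos _) hZpos, Real.log_zpow]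
    push_cast
    exact h3
  set k : ZMod N := (l : ZMod N) with hk
  obtain ⟨m, hm⟩ : ∃ m : ℤ, l = (k.val : ℤ) + N * m := by
    have h3 : ((k.val : ℤ) : ZMod N) = (l : ZMod N) := by
      rw [Int.cast_natCast, ZMod.natCast_zmod_val]
    have h4 : (N : ℤ) ∣ l - (k.val : ℤ) := by
      rw [← ZMod.intCast_zmod_eq_zero_iff_dvd, Int.cast_sub, h3, sub_self]
    obtain ⟨m, hm⟩ := h4
    exact ⟨m, by linarith⟩
  have hY0 : Z * (Q ^ l)⁻¹ ≠ 0 := mul_ne_zero hZ0 (inv_ne_zero (zpow_ne_zero _ hQ0))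
  refine ⟨k, (Q * (Z * (Q ^ l)⁻¹)⁻¹, Z * (Q ^ l)⁻¹), -m, ?_, ?_⟩
  · have hY : ‖Z * (Q ^ l)⁻¹‖ ≤ 1 := by
      rw [norm_mul, norm_inv, norm_zpow, ← div_eq_mul_inv, div_le_one (zpow_pos hQpos _)]
      exact h1
    have hX : ‖Q * (Z * (Q ^ l)⁻¹)⁻¹‖ ≤ 1 := by
      have : Q * (Z * (Q ^ l)⁻¹)⁻¹ = Q ^ (l + 1) / Z := by
        rw [zpow_add₀ hQ0, zpow_one]
        field_simp
      rw [this, norm_div, norm_zpow, div_le_one hZpos]
      exact h2.le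
    refine ⟨by show ‖Q * (Z * (Q ^ l)⁻¹)⁻¹‖ < 65 / 64; linarith,
      by show ‖Z * (Q ^ l)⁻¹‖ < 65 / 64; linarith, ?_⟩
    show ‖Q * (Z * (Q ^ l)⁻¹)⁻¹ * (Z * (Q ^ l)⁻¹)‖ < 2 / 5
    rw [inv_mul_cancel_right₀ hY0]
    exact hQlt
  · refine ⟨hx, ?_, ?_⟩
    · show Complex.exp (2 * Real.pi * I * x.1 / N) = Q * (Z * (Q ^ l)⁻¹)⁻¹ * (Z * (Q ^ l)⁻¹)
      rw [inv_mul_cancel_right₀ hY0]
    · show Complex.exp (2 * Real.pi * I * (x.2 + ((-m : ℤ) : ℂ) * x.1)) =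
        Z * (Q ^ l)⁻¹ * (Q * (Z * (Q ^ l)⁻¹)⁻¹ * (Z * (Q ^ l)⁻¹)) ^ k.val
      rw [inv_mul_cancel_right₀ hY0]
      have e1 : Complex.exp (2 * Real.pi * I * (x.2 + ((-m : ℤ) : ℂ) * x.1)) =
          Z * (Q ^ ((N : ℤ) * m))⁻¹ := by
        rw [hZ, hQ, ← Complex.exp_int_mul, ← Complex.exp_neg, ← Complex.exp_add]
        congr 1
        push_cast
        field_simp
      rw [e1]
      have e2 : (Q ^ l) = Q ^ (k.val) * Q ^ ((N : ℤ) * m) := by
        rw [← zpow_natCast, ← zpow_add₀ hQ0]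
        exact congrArg (Q ^ ·) hm
      rw [e2]
      have hk0 : Q ^ k.val ≠ 0 := pow_ne_zero _ hQ0
      have hm0 : Q ^ ((N : ℤ) * m) ≠ 0 := zpow_ne_zero _ hQ0
      field_simp

/-- every point of the open part is in a chart -/
theorem ext_cover (hGREQ : ST_GREQ) (hBOR : ST_BOR) (hNN : NOK N) (t : ℝ) (q : QN M N) (x : E)
    (hx : 0 < x.1.im) : ∃ (i : Idx M N) (y : E), y ∈ Uof i ∧ ricR M t (Sum.inl q) x i y := by
  obtain ⟨g, hg⟩ := ModularGroup.exists_smul_mem_fd ⟨x.1, hx⟩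
  have him := ModularGroup.three_le_four_mul_im_sq_of_mem_fd hg
  have hmob : ((g • (⟨x.1, hx⟩ : UpperHalfPlane) : UpperHalfPlane) : ℂ) = mob g x.1 := by
    rw [UpperHalfPlane.coe_specialLinearGroup_apply]
    unfold mob
    simp
  have hpos : 0 < (g • (⟨x.1, hx⟩ : UpperHalfPlane)).im := UpperHalfPlane.im_pos _
  have him2 : (g • (⟨x.1, hx⟩ : UpperHalfPlane)).im = (mob g x.1).im := by
    rw [← hmob]
    rfl
  rw [him2] at him hpos
  have h45 : 4 / 5 < (mob g x.1).im := by nlinarith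
  let q' : QN M N := q * (⟨hN M N g, ⟨g, rfl⟩⟩ : QN M N)⁻¹
  have hq' : (q : SL(2, ZMod N) × ℂˣ) = (q' : SL(2, ZMod N) × ℂˣ) * hN M N g := by
    show (q : SL(2, ZMod N) × ℂˣ) = (q : SL(2, ZMod N) × ℂˣ) * (hN M N g)⁻¹ * hN M N g
    rw [inv_mul_cancel_right]
  obtain ⟨x', h1, h2⟩ := ext_moveTo t q q' g hq' x hx
  by_cases hL : 4 * Real.pi * x'.1.im / N < 37 / 20
  · exact ⟨Sum.inl q', x', ⟨by rw [h2]; exact h45, hL⟩, h1⟩
  · obtain ⟨h, hh⟩ := QuotientGroup.mk_out_eq_mul (HB M N) q'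
    obtain ⟨γ₁, hγ₁, e1⟩ := h.2
    set c : Cusp M N := (q' : QN M N ⧸ HB M N) with hc
    have hx' : 0 < x'.1.im := by rw [h2]; linarith
    have hq2 : (q' : SL(2, ZMod N) × ℂˣ) =
        (cout M c : SL(2, ZMod N) × ℂˣ) * hN M N (γ₁⁻¹) := by
      have h3 : cout M c = q' * (h : QN M N) := hh
      rw [h3, map_inv]
      have h4 : ((h : QN M N) : SL(2, ZMod N) × ℂˣ) = hN M N γ₁ := by
        rw [← e1]
        rfl
      show (q' : SL(2, ZMod N) × ℂˣ) = (q' : SL(2, ZMod N) × ℂˣ) *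
        ((h : QN M N) : SL(2, ZMod N) × ℂˣ) * (hN M N γ₁)⁻¹
      rw [h4, mul_inv_cancel_right]
    obtain ⟨x'', h5, h6⟩ := ext_moveTo t q' (cout M c) γ₁⁻¹ hq2 x' hx'
    obtain ⟨s, -, -, -, s3, -⟩ := hBOR M γ₁⁻¹ (inv_mem hγ₁)
    have h7 : x''.1.im = x'.1.im := by
      rw [h6, (s3 x'.1).2, add_im, intCast_im, add_zero]
    obtain ⟨k, p, m, hp, hD⟩ := ext_node hNN x'' (by rw [h7]; exact hx')
      (by rw [h7]; exact not_lt.1 hL)
    refine ⟨Sum.inr (c, k), p, hp, ⟨_, hD, ?_⟩⟩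
    exact (hGREQ M N t).2.2 _ _ _ _ _ _ hx h1 ((hGREQ M N t).2.2 _ _ _ _ _ _ hx' h5
      (ext_trans_lat t _ x'' m))

/-! ### The extended relation -/

theorem ext_T1 (hGREQ : ST_GREQ) (t : ℝ) (q q' : QN M N) (x x' : E) (hx : 0 < x.1.im)
    (h : GR M t q q' x x') (i : Idx M N) (y : E) (h1 : ricR M t (Sum.inl q) x i y) :
    ricR M t (Sum.inl q') x' i y := by
  obtain ⟨hx', h'⟩ := (hGREQ M N t).2.1 _ _ _ _ hx h
  rcases i with q1 | ⟨c, k⟩
  · exact (hGREQ M N t).2.2 _ _ _ _ _ _ hx' h' h1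
  · obtain ⟨x₀, e1, e2⟩ := h1
    exact ⟨x₀, e1, (hGREQ M N t).2.2 _ _ _ _ _ _ hx' h' e2⟩

theorem ext_T2 (hGREQ : ST_GREQ) (hDD : ST_DD) (hNN : NOK N) (t : ℝ) (q : QN M N) (x : E)
    (hx : 0 < x.1.im) (i j : Idx M N) (y y' : E) (hy : y ∈ Uof i) (hy' : y' ∈ Uof j)
    (h1 : ricR M t (Sum.inl q) x i y) (h2 : ricR M t (Sum.inl q) x j y') :
    ricR M t i y j y' := by
  rcases i with q1 | ⟨c, k⟩
  · exact ext_T1 hGREQ t q q1 x y hx h1 j y' h2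
  · obtain ⟨x₀, e1, e2⟩ := h1
    rcases j with q2 | ⟨c', k'⟩
    · exact ⟨x₀, e1, (hGREQ M N t).2.2 _ _ _ _ _ _ ((hGREQ M N t).2.1 _ _ _ _ hx h2).1
        ((hGREQ M N t).2.1 _ _ _ _ hx h2).2 e2⟩
    · obtain ⟨x₁, e3, e4⟩ := h2
      refine (hDD M N hNN t c c' k k' y hy y' hy' (ext_D0_ne e1) (ext_D0_ne e3)).1
        ⟨x₀, x₁, e1, e3, ?_⟩
      exact (hGREQ M N t).2.2 _ _ _ _ _ _ ((hGREQ M N t).2.1 _ _ _ _ hx e2).1
        ((hGREQ M N t).2.1 _ _ _ _ hx e2).2 e4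

theorem ext_T3 (hGREQ : ST_GREQ) (hDD : ST_DD) (hDU : ST_DU) (hBOR : ST_BOR) (hNN : NOK N)
    (t : ℝ) (q q' : QN M N) (x x' : E)
    (hx : 0 < x.1.im) (hx' : 0 < x'.1.im) (i j : Idx M N) (y y' : E) (hy : y ∈ Uof i)
    (hy' : y' ∈ Uof j)
    (h1 : ricR M t (Sum.inl q) x i y) (h2 : ricR M t (Sum.inl q') x' j y')
    (h : ricR M t i y j y') : GR M t q q' x x' := by
  have sy := fun (q q' : QN M N) (x x' : E) (h : 0 < x.1.im) (h' : GR M t q q' x x') =>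
    (hGREQ M N t).2.1 q q' x x' h h'
  have tr := fun (q q' q'' : QN M N) (x x' x'' : E) (h : 0 < x.1.im) (h1 : GR M t q q' x x')
    (h2 : GR M t q' q'' x' x'') => (hGREQ M N t).2.2 q q' q'' x x' x'' h h1 h2
  rcases i with q1 | ⟨c, k⟩
  · -- the point `x` is related to `y`
    rcases j with q2 | ⟨c', k'⟩
    · exact tr _ _ _ _ _ _ hx h1 (tr _ _ _ _ _ _ (sy _ _ _ _ hx h1).1 h
        (sy _ _ _ _ hx' h2).2)
    · obtain ⟨x₀, e1, e2⟩ := h
      obtain ⟨x₁, e3, e4⟩ := h2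
      have h3 := ext_D0_GR hDU hBOR hNN t (cout M c') e1 e3
      have hy0 := (sy _ _ _ _ hx h1).1
      exact tr _ _ _ _ _ _ hx h1 (tr _ _ _ _ _ _ hy0 e2 (tr _ _ _ _ _ _ e1.1 h3
        (sy _ _ _ _ hx' e4).2))
  · obtain ⟨x₀, e1, e2⟩ := h1
    rcases j with q2 | ⟨c', k'⟩
    · obtain ⟨x₁, e3, e4⟩ := h
      have h3 := ext_D0_GR hDU hBOR hNN t (cout M c) e1 e3
      have h5 := sy _ _ _ _ hx' h2
      have h6 := sy _ _ _ _ h5.1 e4
      exact tr _ _ _ _ _ _ hx e2 (tr _ _ _ _ _ _ e1.1 h3 (tr _ _ _ _ _ _ h6.1 h6.2 h5.2))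
    · obtain ⟨x₁, e3, e4⟩ := h2
      obtain ⟨z₀, z₁, f1, f2, f3⟩ := (hDD M N hNN t c c' k k' y hy y' hy' (ext_D0_ne e1)
        (ext_D0_ne e3)).2 h
      have g1 := ext_D0_GR hDU hBOR hNN t (cout M c) e1 f1
      have g2 := ext_D0_GR hDU hBOR hNN t (cout M c') f2 e3
      have h6 := sy _ _ _ _ hx' e4
      exact tr _ _ _ _ _ _ hx e2 (tr _ _ _ _ _ _ e1.1 g1 (tr _ _ _ _ _ _ f1.1 f3
        (tr _ _ _ _ _ _ f2.1 g2 h6.2)))

/-! ### The extended map -/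

open Classical in
/-- the extension -/
def ext_fH {n : ℕ} (f : Idx M N → E → ℙ ℂ (Fin (n + 1) → ℂ)) (t : ℝ) (q : QN M N) (x : E) :
    ℙ ℂ (Fin (n + 1) → ℂ) :=
  if h : ∃ (i : Idx M N) (y : E), y ∈ Uof i ∧ ricR M t (Sum.inl q) x i y then
    f h.choose h.choose_spec.choose
  else f (Sum.inl q) x

theorem ext_fH_eq (hGREQ : ST_GREQ) (hDD : ST_DD) (hNN : NOK N) {n : ℕ}
    (f : Idx M N → E → ℙ ℂ (Fin (n + 1) → ℂ)) (t : ℝ)
    (hf : ∀ i j, ∀ x ∈ Uof i, ∀ y ∈ Uof j, f i x = f j y ↔ ricR M t i x j y)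
    (q : QN M N) (x : E) (hx : 0 < x.1.im) (i : Idx M N) (y : E) (hy : y ∈ Uof i)
    (h : ricR M t (Sum.inl q) x i y) : ext_fH f t q x = f i y := by
  have h0 : ∃ (i : Idx M N) (y : E), y ∈ Uof i ∧ ricR M t (Sum.inl q) x i y := ⟨i, y, hy, h⟩
  unfold ext_fH
  rw [dif_pos h0]
  obtain ⟨h1, h2⟩ := h0.choose_spec.choose_spec
  exact (hf _ _ _ h1 _ hy).2 (ext_T2 hGREQ hDD hNN t q x hx _ _ _ _ h1 hy h2 h)

theorem ext_UH_pos {x : E} (hx : x ∈ UH N) : 0 < x.1.im := by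
  have := hx.1
  linarith

theorem ext_open_UH : IsOpen (UH N) := by
  unfold UH
  refine IsOpen.and ?_ ?_
  · exact isOpen_lt continuous_const (Complex.continuous_im.comp continuous_fst)
  · refine isOpen_lt ?_ continuous_const
    exact (continuous_const.mul (Complex.continuous_im.comp continuous_fst)).div_const _

theorem ext_open_UD : IsOpen UD := by
  unfold UD
  refine IsOpen.and ?_ (IsOpen.and ?_ ?_)
  · exact isOpen_lt continuous_fst.norm continuous_const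
  · exact isOpen_lt continuous_snd.norm continuous_const
  · exact isOpen_lt (continuous_fst.mul continuous_snd).norm continuous_const

theorem st_EXT (hGREQ : ST_GREQ) (hGET : ST_GET) (hGBI : ST_GBI) (hDL : ST_DL) (hDU : ST_DU)
    (hDD : ST_DD) (hBOR : ST_BOR) : ST_EXT := by
  intro M N hNN t hE
  obtain ⟨n, f, hf, hL⟩ := hE
  have hN1 : 1 ≤ N := by have := hNN.2; omega
  refine ⟨⟨n, ext_fH f t, fun ck => f (Sum.inr ck), ?_, ?_, fun ck => hL (Sum.inr ck), ?_⟩⟩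
  · intro q q' x x' hx hx'
    obtain ⟨i, y, hy, h1⟩ := ext_cover hGREQ hBOR hNN t q x hx
    obtain ⟨j, y', hy', h2⟩ := ext_cover hGREQ hBOR hNN t q' x' hx'
    rw [ext_fH_eq hGREQ hDD hNN f t hf q x hx i y hy h1,
      ext_fH_eq hGREQ hDD hNN f t hf q' x' hx' j y' hy' h2, hf i j y hy y' hy']
    constructor
    · exact ext_T3 hGREQ hDD hDU hBOR hNN t q q' x x' hx hx' i j y y' hy hy' h1 h2
    · intro h
      exact ext_T2 hGREQ hDD hNN t q' x' hx' i j y y' hy hy'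
        (ext_T1 hGREQ t q q' x x' hx h i y h1) h2
  · intro q x hx
    obtain ⟨i, y, hy, h1⟩ := ext_cover hGREQ hBOR hNN t q x hx
    obtain ⟨V, hV, hyV, F, hF, hFf⟩ := hL i y hy
    rcases i with q1 | ⟨c, k⟩
    · obtain ⟨γ, a, b, e1, e2, -⟩ := hGET M N t q q1 x y hx h1
      obtain ⟨h, hs, ht, hh, hc, -⟩ := hGBI γ a b
      refine ⟨{x : E | 0 < x.1.im} ∩ h ⁻¹' (V ∩ UH N), ?_, ?_, fun x => F (h x), ?_, ?_⟩
      · rw [← hs]
        exact h.isOpen_inter_preimage (hV.inter ext_open_UH)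
      · refine ⟨hx, ?_⟩
        show h x ∈ V ∩ UH N
        rw [hh, ← e1]
        exact ⟨hyV, hy⟩
      · refine hF.comp ?_ (fun x hx => hx.2.1)
        refine (hc.differentiableOn (by simp)).mono (fun x hx => ?_)
        rw [hs]
        exact hx.1
      · intro x' hx'
        have h3 : h x' ∈ UH N := hx'.2.2
        obtain ⟨g1, g2⟩ := hFf (h x') hx'.2.1
        refine ⟨g1, ?_⟩
        rw [← g2]
        refine ext_fH_eq hGREQ hDD hNN f t hf q x' hx'.1 (Sum.inl q1) (h x') h3 ?_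
        show GR M t q q1 x' (h x')
        rw [hh]
        exact e2 x' hx'.1
    · obtain ⟨x₀, d1, d2⟩ := h1
      obtain ⟨γ, a, b, e1, e2, -⟩ := hGET M N t q (cout M c) x x₀ hx d2
      obtain ⟨h, hs, ht, hh, hc, -⟩ := hGBI γ a b
      have hyU : y ∈ UD := hy
      obtain ⟨-, hD2⟩ := hDL N hN1 k y (ext_D0_ne d1) (lt_trans hyU.2.2 (by norm_num))
      obtain ⟨g, g1, g2, g3, g4, g5⟩ := hD2 x₀ d1
      have hopen : IsOpen (g.target ∩ g.symm ⁻¹' (V ∩ UD)) :=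
        g.isOpen_inter_preimage_symm (hV.inter ext_open_UD)
      refine ⟨{x : E | 0 < x.1.im} ∩ h ⁻¹' (g.target ∩ g.symm ⁻¹' (V ∩ UD)), ?_, ?_,
        fun x => F (g.symm (h x)), ?_, ?_⟩
      · rw [← hs]
        exact h.isOpen_inter_preimage hopen
      · refine ⟨hx, ?_⟩
        show h x ∈ g.target ∩ g.symm ⁻¹' (V ∩ UD)
        rw [hh, ← e1, ← g2]
        refine ⟨g.map_source g1, ?_⟩
        show g.symm (g y) ∈ V ∩ UD
        rw [g.left_inv g1]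
        exact ⟨hyV, hyU⟩
      · refine hF.comp ?_ (fun x hx => hx.2.2.1)
        refine DifferentiableOn.comp (g5.differentiableOn (by simp)) ?_ (fun x hx => hx.2.1)
        refine (hc.differentiableOn (by simp)).mono (fun x hx => ?_)
        rw [hs]
        exact hx.1
      · intro x' hx'
        have h3 : g.symm (h x') ∈ UD := hx'.2.2.2
        obtain ⟨w1, w2⟩ := hFf (g.symm (h x')) hx'.2.2.1
        refine ⟨w1, ?_⟩
        rw [← w2]
        refine ext_fH_eq hGREQ hDD hNN f t hf q x' hx'.1 (Sum.inr (c, k)) (g.symm (h x')) h3 ?_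
        refine ⟨h x', ?_, ?_⟩
        · have := (g3 _ (g.map_target hx'.2.1)).2.2
          rwa [g.right_inv hx'.2.1] at this
        · rw [hh]
          exact e2 x' hx'.1
  · intro c k p hp x₀ hD
    symm
    refine ext_fH_eq hGREQ hDD hNN f t hf (cout M c) x₀ hD.1 (Sum.inr (c, k)) p hp ?_
    exact ⟨x₀, hD, (hGREQ M N t).1 _ _⟩

end RicP
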