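import Pool.Agent.Helper88.Ric.Stmts

/-! # Module GLOB: the global holomorphic sum of the zeros -/

set_option autoImplicit false

open scoped ContDiff Manifold Topology MatrixGroups LinearAlgebra.Projectivization
open Complex

noncomputable section

namespace RicP

/-- the upper half plane -/
def glob_H : Set ℂ := {τ : ℂ | 0 < τ.im}

theorem glob_open : IsOpen glob_H := isOpen_lt continuous_const Complex.continuous_im

theorem glob_conv : Convex ℝ glob_H := convex_halfSpace_im_gt 0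

theorem glob_I : I ∈ glob_H := by
  show 0 < I.im
  simp

/-- a locally constant property of the points of the upper half plane -/
theorem glob_conn (P : ℂ → Prop) (hloc : ∀ τ₀ ∈ glob_H, ∃ δ > 0, ∀ τ ∈ Metric.ball τ₀ δ,
    τ ∈ glob_H → (P τ ↔ P τ₀)) (hI : P I) : ∀ τ ∈ glob_H, P τ := by
  have hop : ∀ Q : ℂ → Prop, (∀ τ₀ ∈ glob_H, ∃ δ > 0, ∀ τ ∈ Metric.ball τ₀ δ,
      τ ∈ glob_H → (Q τ ↔ Q τ₀)) → IsOpen {τ | τ ∈ glob_H ∧ Q τ} := by
    intro Q hQ
    rw [Metric.isOpen_iff]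
    rintro τ₀ ⟨h0, h1⟩
    obtain ⟨δ, hδ, h2⟩ := hQ τ₀ h0
    obtain ⟨δ', hδ', h3⟩ := Metric.isOpen_iff.1 glob_open τ₀ h0
    refine ⟨min δ δ', lt_min hδ hδ', fun τ hτ => ?_⟩
    have h4 : τ ∈ glob_H := h3 (Metric.ball_subset_ball (min_le_right _ _) hτ)
    exact ⟨h4, (h2 τ (Metric.ball_subset_ball (min_le_left _ _) hτ) h4).2 h1⟩
  have h1 := hop P hloc
  have h2 := hop (fun τ => ¬ P τ) (fun τ₀ h0 => by
    obtain ⟨δ, hδ, h3⟩ := hloc τ₀ h0
    exact ⟨δ, hδ, fun τ h4 h5 => not_congr (h3 τ h4 h5)⟩)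
  have h3 := IsPreconnected.subset_left_of_subset_union h1 h2 (by
    rw [Set.disjoint_left]
    rintro τ ⟨-, h4⟩ ⟨-, h5⟩
    exact h5 h4) (s := glob_H) (fun τ hτ => by
      by_cases h : P τ
      · exact Or.inl ⟨hτ, h⟩
      · exact Or.inr ⟨hτ, h⟩) ⟨I, glob_I, glob_I, hI⟩ glob_conv.isPreconnected
  exact fun τ hτ => (h3 hτ).2

/-- balls exhausting the half plane -/
def glob_B (n : ℕ) : Set ℂ := Metric.ball (((n : ℝ) + 1 : ℝ) * I) ((n : ℝ) + 1)

theorem glob_mem_B (n : ℕ) (τ : ℂ) : τ ∈ glob_B n ↔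
    τ.re ^ 2 + τ.im ^ 2 < 2 * τ.im * ((n : ℝ) + 1) := by
  unfold glob_B
  rw [Metric.mem_ball, dist_eq_norm]
  have h0 : (0 : ℝ) ≤ (n : ℝ) + 1 := by positivity
  rw [← abs_of_nonneg (norm_nonneg (τ - _)), ← sq_lt_sq₀ (abs_nonneg _) h0, sq_abs,
    ← Complex.normSq_eq_norm_sq, Complex.normSq_apply]
  simp only [sub_re, mul_re, ofReal_re, I_re, mul_zero, ofReal_im, I_im, sub_im, mul_im,
    mul_one, zero_mul, sub_zero, add_zero]
  constructor <;> intro h <;> nlinarith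

theorem glob_B_sub (n : ℕ) : glob_B n ⊆ glob_H := by
  intro τ hτ
  rw [glob_mem_B] at hτ
  show 0 < τ.im
  by_contra h
  have h0 : (0 : ℝ) ≤ (n : ℝ) + 1 := by positivity
  nlinarith [sq_nonneg τ.re, sq_nonneg τ.im, mul_nonneg (not_lt.1 h |> neg_nonneg.2) h0]

theorem glob_B_mono {n m : ℕ} (h : n ≤ m) : glob_B n ⊆ glob_B m := by
  intro τ hτ
  have h1 : 0 < τ.im := glob_B_sub n hτ
  rw [glob_mem_B] at hτ ⊢
  have h2 : (n : ℝ) ≤ m := by exact_mod_cast h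
  nlinarith

theorem glob_B_I (n : ℕ) : I ∈ glob_B n := by
  rw [glob_mem_B]
  simp
  have : (0 : ℝ) ≤ n := by positivity
  linarith

theorem glob_B_ex (τ : ℂ) (hτ : τ ∈ glob_H) : ∃ n, τ ∈ glob_B n := by
  have hτ' : 0 < τ.im := hτ
  obtain ⟨n, hn⟩ := exists_nat_gt ((τ.re ^ 2 + τ.im ^ 2) / (2 * τ.im))
  refine ⟨n, ?_⟩
  rw [glob_mem_B]
  rw [div_lt_iff₀ (by positivity)] at hn
  nlinarith

/-- primitives on the half plane -/
theorem glob_prim (f : ℂ → ℂ) (hf : DifferentiableOn ℂ f glob_H) :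
    ∃ F : ℂ → ℂ, ∀ τ ∈ glob_H, HasDerivAt F (f τ) τ := by
  have h1 : ∀ n : ℕ, ∃ g : ℂ → ℂ, g I = 0 ∧ ∀ x ∈ glob_B n, HasDerivAt g (f x) x := fun n =>
    ((hf.mono (glob_B_sub n)).isExactOn_ball).with_val_at I 0
  choose G hG0 hG using h1
  have h2 : ∀ n m, n ≤ m → ∀ τ ∈ glob_B n, G n τ = G m τ := by
    intro n m hnm
    refine IsOpen.eqOn_of_deriv_eq Metric.isOpen_ball (convex_ball _ _).isPreconnected
      (fun x hx => (hG n x hx).differentiableAt.differentiableWithinAt)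
      (fun x hx => (hG m x (glob_B_mono hnm hx)).differentiableAt.differentiableWithinAt)
      (fun x hx => ?_) (glob_B_I n) ?_
    · rw [(hG n x hx).deriv, (hG m x (glob_B_mono hnm hx)).deriv]
    · rw [hG0, hG0]
  classical
  let F : ℂ → ℂ := fun τ => if h : ∃ n, τ ∈ glob_B n then G h.choose τ else 0
  have h3 : ∀ n, ∀ τ ∈ glob_B n, F τ = G n τ := by
    intro n τ hτ
    have h : ∃ n, τ ∈ glob_B n := ⟨n, hτ⟩
    show (if h : ∃ n, τ ∈ glob_B n then G h.choose τ else 0) = G n τ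
    rw [dif_pos h]
    rcases le_total h.choose n with h4 | h4
    · exact h2 _ _ h4 τ h.choose_spec
    · exact (h2 _ _ h4 τ hτ).symm
  refine ⟨F, fun τ hτ => ?_⟩
  obtain ⟨n, hn⟩ := glob_B_ex τ hτ
  refine (hG n τ hn).congr_of_eventuallyEq ?_
  filter_upwards [Metric.isOpen_ball.mem_nhds hn] with x hx
  exact h3 n x hx

/-- integral lattice functions are affine -/
theorem glob_int (f : ℂ → ℂ) (B : Set ℂ) (hB : IsPreconnected B) (hBH : B ⊆ glob_H)
    (hf : ContinuousOn f B) (hl : ∀ τ ∈ B, ∃ m n : ℤ, f τ = (m : ℂ) * τ + n) (τ₀ : ℂ)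
    (h0 : τ₀ ∈ B) : ∃ m n : ℤ, ∀ τ ∈ B, f τ = (m : ℂ) * τ + n := by
  obtain ⟨m₀, n₀, h1⟩ := hl τ₀ h0
  have hdis : IsDiscrete (Set.range ((↑) : ℤ → ℝ)) := by
    rw [isDiscrete_iff_discreteTopology]
    exact (Int.isClosedEmbedding_coe_real.isEmbedding.toHomeomorph.symm.isEmbedding).discreteTopology
  have him : ∀ τ ∈ B, τ.im ≠ 0 := fun τ hτ => ne_of_gt (hBH hτ)
  have key : ∀ τ ∈ B, ∀ m n : ℤ, f τ = (m : ℂ) * τ + n →
      (f τ).im / τ.im = m ∧ (f τ).re - (f τ).im / τ.im * τ.re = n := by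
    intro τ hτ m n h
    have h2 : (f τ).im = m * τ.im := by
      rw [h]
      simp
    have h3 : (f τ).re = m * τ.re + n := by
      rw [h]
      simp
    have h4 : (f τ).im / τ.im = m := by
      rw [h2, mul_div_cancel_right₀ _ (him τ hτ)]
    refine ⟨h4, ?_⟩
    rw [h4, h3]
    ring
  have c1 : ContinuousOn (fun τ => (f τ).im / τ.im) B :=
    (Complex.continuous_im.comp_continuousOn hf).div Complex.continuous_im.continuousOn him
  have c2 : ContinuousOn (fun τ => (f τ).re - (f τ).im / τ.im * τ.re) B :=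
    (Complex.continuous_re.comp_continuousOn hf).sub (c1.mul Complex.continuous_re.continuousOn)
  refine ⟨m₀, n₀, fun τ hτ => ?_⟩
  obtain ⟨m, n, h2⟩ := hl τ hτ
  have k0 := key τ₀ h0 m₀ n₀ h1
  have k1 := key τ hτ m n h2
  have e1 := hB.constant_of_mapsTo hdis c1 (fun τ hτ => by
    obtain ⟨m, n, h⟩ := hl τ hτ
    exact ⟨m, (key τ hτ m n h).1.symm⟩) hτ h0
  have e2 := hB.constant_of_mapsTo hdis c2 (fun τ hτ => by
    obtain ⟨m, n, h⟩ := hl τ hτ
    exact ⟨n, (key τ hτ m n h).2.symm⟩) hτ h0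
  rw [k0.1, k1.1] at e1
  rw [k0.2, k1.2] at e2
  have e3 : m = m₀ := by exact_mod_cast e1
  have e4 : n = n₀ := by exact_mod_cast e2
  rw [h2, e3, e4]

theorem glob_latt {τ a b : ℂ} (h : ((a : ℂ) : ℂ ⧸ latt τ) = ((b : ℂ) : ℂ ⧸ latt τ)) :
    ∃ m n : ℤ, a - b = (m : ℂ) * τ + n := by
  rw [eq_comm, QuotientAddGroup.eq] at h
  obtain ⟨m, n, h1⟩ := h
  exact ⟨m, n, by rw [← h1]; ring⟩

theorem glob_latt' {τ a b : ℂ} (m n : ℤ) (h : a - b = (m : ℂ) * τ + n) :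
    ((a : ℂ) : ℂ ⧸ latt τ) = ((b : ℂ) : ℂ ⧸ latt τ) := by
  rw [eq_comm, QuotientAddGroup.eq]
  exact ⟨m, n, by rw [← h]; ring⟩

/-- two functions on a ball with the same second derivative differ by an affine function -/
theorem glob_affine (f g : ℂ → ℂ) (c : ℂ) (r : ℝ) (hr : 0 < r)
    (hf : DifferentiableOn ℂ f (Metric.ball c r)) (hg : DifferentiableOn ℂ g (Metric.ball c r))
    (h : ∀ z ∈ Metric.ball c r, deriv (deriv f) z = deriv (deriv g) z) :
    ∃ α β : ℂ, ∀ z ∈ Metric.ball c r, f z = g z + (α * z + β) := by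
  have hc : c ∈ Metric.ball c r := Metric.mem_ball_self hr
  have hf' := hf.deriv Metric.isOpen_ball
  have hg' := hg.deriv Metric.isOpen_ball
  have hpc := (convex_ball c r).isPreconnected
  have h1 : ∀ z ∈ Metric.ball c r, deriv f z = deriv g z + (deriv f c - deriv g c) := by
    refine IsOpen.eqOn_of_deriv_eq Metric.isOpen_ball hpc hf' (hg'.add_const _) (fun z hz => ?_)
      hc (by ring)
    rw [deriv_add_const, h z hz]
  refine ⟨deriv f c - deriv g c, f c - g c - (deriv f c - deriv g c) * c, ?_⟩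
  refine IsOpen.eqOn_of_deriv_eq Metric.isOpen_ball hpc hf (hg.add (by fun_prop)) (fun z hz => ?_)
      hc (by ring)
  have hgz : DifferentiableAt ℂ g z := hg.differentiableAt (Metric.isOpen_ball.mem_nhds hz)
  have e : HasDerivAt (fun z => g z + ((deriv f c - deriv g c) * z +
      (f c - g c - (deriv f c - deriv g c) * c))) (deriv g z + (deriv f c - deriv g c)) z := by
    have := hgz.hasDerivAt.add (((hasDerivAt_id z).const_mul (deriv f c - deriv g c)).add_const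
      (f c - g c - (deriv f c - deriv g c) * c))
    rw [mul_one] at this
    exact this
  rw [e.deriv, h1 z hz]

/-- derivatives of a function which is locally the sum of another one and an affine one -/
theorem glob_dd {f g : ℂ → ℂ} {z α β : ℂ} (h : ∀ᶠ w in 𝓝 z, f w = g w + (α * w + β))
    (hg : ∀ᶠ w in 𝓝 z, DifferentiableAt ℂ g w) :
    deriv f z = deriv g z + α ∧ deriv (deriv f) z = deriv (deriv g) z := by
  have h1 : ∀ᶠ w in 𝓝 z, deriv f w = deriv g w + α := by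
    filter_upwards [h.eventually_nhds, hg] with w hw hgw
    have e : HasDerivAt (fun w => g w + (α * w + β)) (deriv g w + α) w := by
      have := hgw.hasDerivAt.add (((hasDerivAt_id w).const_mul α).add_const β)
      rw [mul_one] at this
      exact this
    exact (e.congr_of_eventuallyEq hw).deriv
  refine ⟨h1.self_of_nhds, ?_⟩
  have h2 : deriv f =ᶠ[𝓝 z] fun w => deriv g w + α := h1
  rw [h2.deriv_eq, deriv_add_const]

theorem st_GLOB (hLOC : ST_LOC) : ST_GLOB := by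
  intro μ hμ hper
  have hloc := hLOC μ hμ hper
  have hloc' : ∀ τ₀ : ℂ, ∃ δ > 0, ∃ S : ℂ → ℂ, τ₀ ∈ glob_H →
      Metric.ball τ₀ δ ⊆ glob_H ∧ DifferentiableOn ℂ S (Metric.ball τ₀ δ) ∧
      ∀ τ ∈ Metric.ball τ₀ δ, sumF μ τ = ((S τ : ℂ) : ℂ ⧸ latt τ) ∧ degF μ τ = degF μ τ₀ := by
    intro τ₀
    by_cases h : τ₀ ∈ glob_H
    · obtain ⟨δ, hδ, h1, S, h2, h3⟩ := hloc τ₀ h
      exact ⟨δ, hδ, S, fun _ => ⟨h1, h2, fun τ hτ => ⟨(h3 τ hτ).1, (h3 τ hτ).2.1⟩⟩⟩
    · exact ⟨1, one_pos, fun _ => 0, fun h' => absurd h' h⟩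
  choose δ hδ S hS using hloc'
  -- local differences
  have hdiff : ∀ τ₀ ∈ glob_H, ∀ τ₁ ∈ Metric.ball τ₀ (δ τ₀), ∃ m n : ℤ,
      ∀ᶠ w in 𝓝 τ₁, S τ₁ w = S τ₀ w + ((m : ℂ) * w + n) := by
    intro τ₀ h0 τ₁ h1
    obtain ⟨a1, a2, a3⟩ := hS τ₀ h0
    obtain ⟨b1, b2, b3⟩ := hS τ₁ (a1 h1)
    obtain ⟨ρ, hρ, h2⟩ := Metric.isOpen_iff.1 (Metric.isOpen_ball.inter Metric.isOpen_ball) τ₁
      (show τ₁ ∈ Metric.ball τ₀ (δ τ₀) ∩ Metric.ball τ₁ (δ τ₁) from
        ⟨h1, Metric.mem_ball_self (hδ τ₁)⟩)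
    obtain ⟨m, n, h3⟩ := glob_int (fun w => S τ₁ w - S τ₀ w) (Metric.ball τ₁ ρ)
      (convex_ball _ _).isPreconnected (fun w hw => a1 (h2 hw).1)
      ((b2.continuousOn.mono (fun w hw => (h2 hw).2)).sub
        (a2.continuousOn.mono (fun w hw => (h2 hw).1)))
      (fun w hw => glob_latt (by rw [← (b3 w (h2 hw).2).1, (a3 w (h2 hw).1).1])) τ₁
      (Metric.mem_ball_self hρ)
    refine ⟨m, n, ?_⟩
    filter_upwards [Metric.ball_mem_nhds τ₁ hρ] with w hw
    have := h3 w hw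
    rw [← this]
    ring
  have hdS : ∀ τ₀ ∈ glob_H, ∀ τ₁ ∈ Metric.ball τ₀ (δ τ₀), ∀ᶠ w in 𝓝 τ₁,
      DifferentiableAt ℂ (S τ₀) w := by
    intro τ₀ h0 τ₁ h1
    filter_upwards [Metric.isOpen_ball.mem_nhds h1] with w hw
    exact (hS τ₀ h0).2.1.differentiableAt (Metric.isOpen_ball.mem_nhds hw)
  -- the second derivative
  set h : ℂ → ℂ := fun τ => deriv (deriv (S τ)) τ with hh
  have hloc2 : ∀ τ₀ ∈ glob_H, ∀ τ₁ ∈ Metric.ball τ₀ (δ τ₀), h τ₁ = deriv (deriv (S τ₀)) τ₁ := by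
    intro τ₀ h0 τ₁ h1
    obtain ⟨m, n, h2⟩ := hdiff τ₀ h0 τ₁ h1
    exact (glob_dd h2 (hdS τ₀ h0 τ₁ h1)).2
  have hhd : DifferentiableOn ℂ h glob_H := by
    intro τ₀ h0
    have h1 := (((hS τ₀ h0).2.1.deriv Metric.isOpen_ball).deriv Metric.isOpen_ball).differentiableAt
      (Metric.ball_mem_nhds τ₀ (hδ τ₀))
    refine (h1.congr_of_eventuallyEq ?_).differentiableWithinAt
    filter_upwards [Metric.ball_mem_nhds τ₀ (hδ τ₀)] with w hw
    exact hloc2 τ₀ h0 w hw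
  obtain ⟨H1, hH1⟩ := glob_prim h hhd
  obtain ⟨H, hH⟩ := glob_prim H1 (fun τ hτ =>
    (hH1 τ hτ).differentiableAt.differentiableWithinAt)
  have hHH : ∀ τ ∈ glob_H, deriv (deriv H) τ = h τ := by
    intro τ hτ
    have : deriv H =ᶠ[𝓝 τ] H1 := by
      filter_upwards [glob_open.mem_nhds hτ] with w hw
      exact (hH w hw).deriv
    rw [this.deriv_eq, (hH1 τ hτ).deriv]
  have hHd : DifferentiableOn ℂ H glob_H := fun τ hτ =>
    (hH τ hτ).differentiableAt.differentiableWithinAt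
  -- the correction at the base point
  obtain ⟨α, β, hαβ⟩ := glob_affine (S I) H I (δ I) (hδ I) (hS I glob_I).2.1
    (hHd.mono (hS I glob_I).1) (fun z hz => by
      rw [hHH z ((hS I glob_I).1 hz), hloc2 I glob_I z hz])
  set F : ℂ → ℂ := fun τ => H τ + (α * τ + β) with hF
  have hFd : DifferentiableOn ℂ F glob_H := hHd.add (by fun_prop)
  have hFF : ∀ τ ∈ glob_H, deriv (deriv F) τ = h τ := by
    intro τ hτ
    rw [← hHH τ hτ]
    refine (glob_dd (α := α) (β := β) (Filter.Eventually.of_forall fun w => rfl) ?_).2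
    filter_upwards [glob_open.mem_nhds hτ] with w hw
    exact (hH w hw).differentiableAt
  have hP : ∀ τ ∈ glob_H, ∃ m n : ℤ, deriv F τ - deriv (S τ) τ = m ∧
      F τ - S τ τ = (m : ℂ) * τ + n := by
    refine glob_conn _ ?_ ?_
    · intro τ₀ h0
      obtain ⟨a, b, hab⟩ := glob_affine F (S τ₀) τ₀ (δ τ₀) (hδ τ₀) (hFd.mono (hS τ₀ h0).1)
        (hS τ₀ h0).2.1 (fun z hz => by rw [hFF z ((hS τ₀ h0).1 hz), hloc2 τ₀ h0 z hz])
      have hiff : ∀ τ₁ ∈ Metric.ball τ₀ (δ τ₀), ((∃ m n : ℤ, deriv F τ₁ - deriv (S τ₁) τ₁ = m ∧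
          F τ₁ - S τ₁ τ₁ = (m : ℂ) * τ₁ + n) ↔ (∃ m n : ℤ, a = m ∧ b = n)) := by
        intro τ₁ h1
        obtain ⟨m₁, n₁, h2⟩ := hdiff τ₀ h0 τ₁ h1
        have e1 := (glob_dd h2 (hdS τ₀ h0 τ₁ h1)).1
        have h3 : ∀ᶠ w in 𝓝 τ₁, F w = S τ₀ w + (a * w + b) := by
          filter_upwards [Metric.isOpen_ball.mem_nhds h1] with w hw
          exact hab w hw
        have e2 := (glob_dd h3 (hdS τ₀ h0 τ₁ h1)).1
        have e3 := h2.self_of_nhds
        have e4 := h3.self_of_nhds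
        rw [e1, e2, e3, e4]
        constructor
        · rintro ⟨m, n, f1, f2⟩
          refine ⟨m + m₁, n + n₁, ?_, ?_⟩
          · push_cast
            linear_combination f1
          · push_cast
            linear_combination f2 - τ₁ * f1
        · rintro ⟨m, n, f1, f2⟩
          refine ⟨m - m₁, n - n₁, ?_, ?_⟩
          · push_cast
            linear_combination f1
          · push_cast
            linear_combination τ₁ * f1 + f2
      refine ⟨δ τ₀, hδ τ₀, fun τ₁ h1 _ => ?_⟩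
      exact (hiff τ₁ h1).trans (hiff τ₀ (Metric.mem_ball_self (hδ τ₀))).symm
    · refine ⟨0, 0, ?_, ?_⟩
      · have h1 : ∀ᶠ w in 𝓝 I, S I w = F w + ((0 : ℂ) * w + 0) := by
          filter_upwards [Metric.ball_mem_nhds I (hδ I)] with w hw
          rw [hαβ w hw, hF]
          ring
        have h2 := (glob_dd h1 (by
          filter_upwards [glob_open.mem_nhds glob_I] with w hw
          exact hFd.differentiableAt (glob_open.mem_nhds hw))).1
        rw [h2]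
        simp
      · rw [hαβ I (Metric.mem_ball_self (hδ I)), hF]
        simp
  refine ⟨degF μ I, F, hFd, fun τ hτ => ⟨?_, ?_⟩⟩
  · obtain ⟨m, n, -, h1⟩ := hP τ hτ
    rw [((hS τ hτ).2.2 τ (Metric.mem_ball_self (hδ τ))).1]
    exact (glob_latt' m n h1).symm
  · refine glob_conn (fun τ => degF μ τ = degF μ I) ?_ rfl τ hτ
    intro τ₀ h0
    refine ⟨δ τ₀, hδ τ₀, fun τ₁ h1 _ => ?_⟩
    rw [((hS τ₀ h0).2.2 τ₁ h1).2]

end RicP
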